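import Pool.Agent.Lib_helper65.Hat.Pairs

/-!
# Hat guessing: the balanced complete multipartite graphs with small parts are the best ones
-/

set_option autoImplicit false

namespace Pool.Agent.Results.MP_c456a2_co.BalancedPairs

open Pool.Agent.Hat

theorem card_multi {r : ℕ} (a : Fin r → ℕ) : Fintype.card (Σ i, Fin (a i)) = ∑ i, a i := by
  rw [Fintype.card_sigma]
  exact Finset.sum_congr rfl fun i _ => Fintype.card_fin _

theorem le_two {k r : ℕ} (h : k ≤ 2 * r) (b : Fin r → ℕ) (hbk : ∑ i, b i = k)
    (hbal : ∀ i j, b i ≤ b j + 1) (i : Fin r) : b i ≤ 2 := by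
  by_contra hi
  have h1 : ∀ j, 2 ≤ b j := fun j => by
    have := hbal i j
    omega
  have h2 : ∑ j, b j = b i + ∑ j ∈ Finset.univ.erase i, b j :=
    (Finset.add_sum_erase _ _ (Finset.mem_univ i)).symm
  have h3 : (Finset.univ.erase i).card * 2 ≤ ∑ j ∈ Finset.univ.erase i, b j := by
    rw [← smul_eq_mul, ← Finset.sum_const]
    exact Finset.sum_le_sum fun j _ => h1 j
  rw [Finset.card_erase_of_mem (Finset.mem_univ i), Finset.card_univ, Fintype.card_fin] at h3
  have h4 := i.2
  omega

/-- Two vertices in one part. -/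
theorem exists_nonadj {k r : ℕ} (hrk : r < k) (a : Fin r → ℕ) (hak : ∑ i, a i = k) :
    ∃ u v : (Σ i, Fin (a i)), u ≠ v ∧ ¬ (multipartite a).Adj u v := by
  have h1 : ∃ i, 2 ≤ a i := by
    by_contra h
    push Not at h
    have h2 : ∑ i, a i ≤ ∑ _i : Fin r, 1 := Finset.sum_le_sum fun i _ => by
      have := h i
      omega
    rw [hak, Finset.sum_const, Finset.card_univ, Fintype.card_fin, smul_eq_mul, mul_one] at h2
    omega
  obtain ⟨i, hi⟩ := h1
  refine ⟨⟨i, ⟨0, by omega⟩⟩, ⟨i, ⟨1, by omega⟩⟩, fun h => ?_, fun h => h rfl⟩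
  have h2 := eq_of_heq (Sigma.mk.inj h).2
  exact absurd (congrArg Fin.val h2) zero_ne_one

theorem card_two {k r : ℕ} (b : Fin r → ℕ) (hb : ∀ i, 1 ≤ b i) (hb2 : ∀ i, b i ≤ 2)
    (hbk : ∑ i, b i = k) : Fintype.card {i // b i = 2} = k - r ∧
      Fintype.card {i // b i = 1} = 2 * r - k ∧ k ≤ 2 * r := by
  have h1 : k = r + Fintype.card {i // b i = 2} := by
    rw [← hbk, Fintype.card_subtype, Finset.card_filter]
    have h2 : ∀ i, b i = 1 + if b i = 2 then 1 else 0 := by
      intro i
      have := hb i
      have := hb2 i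
      split_ifs <;> omega
    rw [Finset.sum_congr rfl fun i _ => h2 i, Finset.sum_add_distrib, Finset.sum_const,
      Finset.card_univ, Fintype.card_fin, smul_eq_mul, mul_one]
  have h3 : r = Fintype.card {i // b i = 2} + Fintype.card {i // b i = 1} := by
    rw [Fintype.card_subtype, Fintype.card_subtype, Finset.card_filter, Finset.card_filter,
      ← Finset.sum_add_distrib]
    have h2 : ∀ i, ((if b i = 2 then 1 else 0) + if b i = 1 then 1 else 0) = 1 := by
      intro i
      have := hb i
      have := hb2 i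
      split_ifs <;> omega
    rw [Finset.sum_congr rfl fun i _ => h2 i, Finset.sum_const,
      Finset.card_univ, Fintype.card_fin, smul_eq_mul, mul_one]
  omega

theorem wins_multi {r t n q : ℕ} (b : Fin r → ℕ)
    (e1 : Fin t ≃ {i // b i = 2}) (e2 : Fin n ≃ {i // b i = 1})
    (h : Wins (pairGraph t n) q) : Wins (multipartite b) q := by
  let e : PV t n → (Σ i, Fin (b i)) := fun x => match x with
    | .inl (.inl i) => ⟨(e1 i).1, ⟨0, by rw [(e1 i).2]; omega⟩⟩
    | .inl (.inr i) => ⟨(e1 i).1, ⟨1, by rw [(e1 i).2]; omega⟩⟩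
    | .inr j => ⟨(e2 j).1, ⟨0, by rw [(e2 j).2]; omega⟩⟩
  have hlab : ∀ x y, (e x).1 = (e y).1 → lab x = lab y := by
    intro x y hxy
    rcases x with (i | i) | j <;> rcases y with (i' | i') | j'
    · exact congrArg Sum.inl (e1.injective (Subtype.ext hxy))
    · exact congrArg Sum.inl (e1.injective (Subtype.ext hxy))
    · have h1 := (e1 i).2
      have h2 := (e2 j').2
      have h3 : (e1 i).1 = (e2 j').1 := hxy
      rw [h3, h2] at h1
      omega
    · exact congrArg Sum.inl (e1.injective (Subtype.ext hxy))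
    · exact congrArg Sum.inl (e1.injective (Subtype.ext hxy))
    · have h1 := (e1 i).2
      have h2 := (e2 j').2
      have h3 : (e1 i).1 = (e2 j').1 := hxy
      rw [h3, h2] at h1
      omega
    · have h1 := (e1 i').2
      have h2 := (e2 j).2
      have h3 : (e2 j).1 = (e1 i').1 := hxy
      rw [← h3, h2] at h1
      omega
    · have h1 := (e1 i').2
      have h2 := (e2 j).2
      have h3 : (e2 j).1 = (e1 i').1 := hxy
      rw [← h3, h2] at h1
      omega
    · exact congrArg Sum.inr (e2.injective (Subtype.ext hxy))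
  refine h.mono e ?_ ?_
  · intro x y hxy
    have h1 : (e x).1 = (e y).1 := by rw [hxy]
    have h3 : ((e x).2 : ℕ) = ((e y).2 : ℕ) := by rw [hxy]
    rcases eq_or_mate (hlab x y h1) with h2 | h2
    · exact h2.symm
    · rcases x with (i | i) | j
      · rw [h2] at h3
        exact absurd h3 zero_ne_one
      · rw [h2] at h3
        exact absurd h3 one_ne_zero
      · exact h2.symm
  · intro x y hxy hxy'
    exact hxy (hlab x y hxy')

/-- Let `1 ≤ r ≤ k`. If `(k - r) ^ 2 ≤ k - 1`, or if `k - 1` is a prime power and `k ≤ 2 r`, then the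
balanced complete `r`-partite graph on `k` vertices has the largest hat guessing number among all
complete `r`-partite graphs on `k` vertices, and this number is `k - 1` (or `k`, if `r = k`). -/
theorem result (k r : ℕ) (hr : 1 ≤ r) (hrk : r ≤ k)
    (h : (k - r) ^ 2 ≤ k - 1 ∨ (IsPrimePow (k - 1) ∧ k ≤ 2 * r)) (b : Fin r → ℕ)
    (hb : ∀ i, 1 ≤ b i) (hbk : ∑ i, b i = k) (hbal : ∀ i j, b i ≤ b j + 1) :
    hatNumber (multipartite b) = (if r = k then k else k - 1) ∧
      ∀ a : Fin r → ℕ, (∀ i, 1 ≤ a i) → ∑ i, a i = k →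
        hatNumber (multipartite a) ≤ hatNumber (multipartite b) := by
  classical
  have hne : ∀ a : Fin r → ℕ, ∑ i, a i = k → Nonempty (Σ i, Fin (a i)) := by
    intro a ha
    rw [← Fintype.card_pos_iff, card_multi, ha]
    omega
  by_cases hrk' : r = k
  · subst hrk'
    have hone : ∀ a : Fin r → ℕ, (∀ i, 1 ≤ a i) → ∑ i, a i = r → ∀ i, a i = 1 := by
      intro a ha1 ha i
      by_contra hi
      have h1 : ∑ _i : Fin r, 1 < ∑ i, a i :=
        Finset.sum_lt_sum (fun i _ => ha1 i) ⟨i, Finset.mem_univ i, by have := ha1 i; omega⟩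
      rw [ha, Finset.sum_const, Finset.card_univ, Fintype.card_fin, smul_eq_mul, mul_one] at h1
      exact lt_irrefl _ h1
    have hup : ∀ a : Fin r → ℕ, ∑ i, a i = r → hatNumber (multipartite a) ≤ r := by
      intro a ha
      have := hne a ha
      refine hat_le fun q hq => ?_
      have h1 := le_card hq
      rwa [card_multi, ha] at h1
    have hlow : r ≤ hatNumber (multipartite b) := by
      refine le_hat (wins_top _ ?_ (by rw [card_multi, hbk]) hr)
      rintro ⟨i, x⟩ ⟨j, y⟩ hxy hij
      apply hxy
      have hij' : i = j := hij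
      subst hij'
      have h1 := hone b hb hbk i
      have h2 : x = y := by
        apply Fin.ext
        have := x.2
        have := y.2
        omega
      rw [h2]
    rw [if_pos rfl]
    refine ⟨le_antisymm (hup b hbk) hlow, fun a _ ha => (hup a ha).trans hlow⟩
  · have hlt : r < k := lt_of_le_of_ne hrk hrk'
    have h2r : k ≤ 2 * r := by
      rcases h with h | h
      · obtain ⟨t, rfl⟩ : ∃ t, k = r + t := ⟨k - r, by omega⟩
        have h1 : r + t - r = t := by omega
        rw [h1] at h
        have h2 : 2 * t ≤ t ^ 2 + 1 := by nlinarith [sq_nonneg ((t : ℤ) - 1), sq_nonneg (t - 1)]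
        omega
      · exact h.2
    have hb2 := le_two h2r b hbk hbal
    obtain ⟨c1, c2, -⟩ := card_two b hb hb2 hbk
    have hup : ∀ a : Fin r → ℕ, ∑ i, a i = k → hatNumber (multipartite a) ≤ k - 1 := by
      intro a ha
      have := hne a ha
      obtain ⟨u, v, huv, hadj⟩ := exists_nonadj hlt a ha
      refine hat_le fun q hq => ?_
      have h1 := lt_card hq huv hadj
      rw [card_multi, ha] at h1
      omega
    have hlow : k - 1 ≤ hatNumber (multipartite b) := by
      refine le_hat (wins_multi b (Fintype.equivFinOfCardEq c1).symm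
        (Fintype.equivFinOfCardEq c2).symm ?_)
      rcases h with h | h
      · exact wins_few (by omega) h (by omega)
      · exact wins_primePow h.1 (by omega)
    rw [if_neg hrk']
    exact ⟨le_antisymm (hup b hbk) hlow, fun a _ ha => (hup a ha).trans hlow⟩

end Pool.Agent.Results.MP_c456a2_co.BalancedPairs
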